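import Pool.Agent.MP_5168f5_an.H83.JL
import Pool.Agent.MP_5168f5_an.H83.AREA
import Pool.Agent.MP_5168f5_an.H83.Basic
import Pool.Agent.MP_5168f5_an.H17S.FlApi

/-! Directions of lines that meet a slab and the neighbourhood of a quadric at four heights. -/

namespace Pool.Agent.MP_5168f5_an.H55K

open MeasureTheory Metric H17S
open scoped ENNReal

/-- The dyadic cell as a set. -/
def cellSet {m : ℕ} (j : ℕ) (c : Z m) : Set (V m) := {v | fl j v = c}

theorem cellSet_eq {m : ℕ} (j : ℕ) (c : Z m) : cellSet j c =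
    Set.univ.pi fun i => Set.Ico ((c i : ℝ) / 2 ^ j) ((c i + 1) / 2 ^ j) := by
  have h : (0 : ℝ) < 2 ^ j := by positivity
  ext v
  simp only [cellSet, Set.mem_ofPred_eq, funext_iff, fl, Int.floor_eq_iff, Set.mem_pi,
    Set.mem_univ, true_imp_iff, Set.mem_Ico, div_le_iff₀ h, lt_div_iff₀ h]
  refine forall_congr' fun i => ?_
  rw [mul_comm (v i)]

theorem vol_cellSet {m : ℕ} (j : ℕ) (c : Z m) :
    volume (cellSet j c) = ENNReal.ofReal ((((2 : ℝ) ^ j)⁻¹) ^ m) := by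
  rw [cellSet_eq, volume_pi_pi]
  have : ∀ i, volume (Set.Ico ((c i : ℝ) / 2 ^ j) ((c i + 1) / 2 ^ j)) =
      ENNReal.ofReal (((2 : ℝ) ^ j)⁻¹) := fun i => by
    rw [Real.volume_Ico]; congr 1; ring
  simp only [this, Finset.prod_const, Finset.card_univ, Fintype.card_fin]
  rw [ENNReal.ofReal_pow (by positivity)]

theorem meas_cellSet {m : ℕ} (j : ℕ) (c : Z m) : MeasurableSet (cellSet j c) := by
  rw [cellSet_eq]; exact MeasurableSet.univ_pi fun _ => measurableSet_Ico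

/-- Counting form of the bound for directions of lines through semialgebraic slices. -/
theorem count (m d k : ℕ) : ∃ C : ℝ, 0 < C ∧ ∀ (p : Fin (m + 1) → Fin k → V m → ℝ)
    (t : Fin (m + 1) → ℝ) (τ T R W : ℝ) (j : ℕ) (E : Finset (Z m)), (∀ i l, H83.IsPoly d (p i l)) →
    0 < τ → (∀ i i', i ≠ i' → τ ≤ |t i - t i'|) → (∀ i, |t i - t 0| ≤ T) →
    (∀ z, (∀ l, 0 < p 0 l z) → ‖z‖ ≤ R) → 0 ≤ W →
    (∀ i, volume {z : V m | ∀ l, 0 < p i l z} ≤ ENNReal.ofReal W) →
    (∀ c ∈ E, ∃ a e : V m, fl j e = c ∧ ∀ i w, ‖w‖ ≤ T / 2 ^ j → ∀ l, 0 < p i l (a + t i • e + w)) →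
    (E.card : ℝ) ≤ C * W * ((2 : ℝ) ^ j / τ) ^ m := by
  obtain ⟨C, hC, H⟩ := H83.jl H83.area m d k
  refine ⟨C * (m + 1), by positivity, fun p t τ T R W j E hp hτ ht hT hR hW hv hE => ?_⟩
  have h2 : (0 : ℝ) < 2 ^ j := by positivity
  have h1 := H p t τ R hp hτ ht hR
  have hsub : (⋃ c ∈ E, cellSet j c) ⊆ {v : V m | ∃ a : V m, ∀ i l, 0 < p i l (a + t i • v)} := by
    intro v hv
    simp only [Set.mem_iUnion] at hv
    obtain ⟨c, hc, hv⟩ := hv
    obtain ⟨a, e, he, h⟩ := hE c hc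
    refine ⟨a + t 0 • (e - v), fun i l => ?_⟩
    have hn : ‖v - e‖ < ((2 : ℝ) ^ j)⁻¹ := norm_sub_lt_of_fl_eq (hv.trans he.symm)
    have := h i ((t i - t 0) • (v - e)) (by
      rw [norm_smul, Real.norm_eq_abs, div_eq_mul_inv]
      exact mul_le_mul (hT i) hn.le (norm_nonneg _) ((abs_nonneg _).trans (hT i))) l
    convert this using 2
    module
  have hU : volume (⋃ c ∈ E, cellSet j c) =
      ENNReal.ofReal (E.card * (((2 : ℝ) ^ j)⁻¹) ^ m) := by
    rw [measure_biUnion_finset (fun c _ c' _ hne => Set.disjoint_left.2 fun v h h' =>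
      hne (h.symm.trans h')) fun c _ => meas_cellSet j c]
    simp only [vol_cellSet, Finset.sum_const, nsmul_eq_mul]
    rw [ENNReal.ofReal_mul (by positivity), ENNReal.ofReal_natCast]
  have hS : ∑ i, volume {z : V m | ∀ l, 0 < p i l z} ≤ ENNReal.ofReal ((m + 1) * W) := by
    refine (Finset.sum_le_sum fun i _ => hv i).trans ?_
    simp only [Finset.sum_const, Finset.card_univ, Fintype.card_fin, nsmul_eq_mul]
    rw [ENNReal.ofReal_mul (by positivity)]
    refine le_of_eq ?_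
    congr 1
    rw [← ENNReal.ofReal_natCast]; push_cast; rfl
  have h3 := (measure_mono hsub).trans (h1.trans (mul_le_mul_right hS _))
  rw [hU, ← ENNReal.ofReal_mul (by positivity),
    ENNReal.ofReal_le_ofReal_iff (by positivity)] at h3
  have h4 : (0 : ℝ) < (2 ^ j) ^ m := by positivity
  rw [inv_pow, ← div_eq_mul_inv, div_le_iff₀ h4] at h3
  refine h3.trans (le_of_eq ?_)
  rw [div_pow]; ring

/-- A set of reals of small diameter. -/
theorem vol_of_close {S : Set ℝ} {b : ℝ} (h : ∀ x ∈ S, ∀ y ∈ S, |x - y| ≤ b) :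
    volume S ≤ ENNReal.ofReal b :=
  (Real.volume_le_diam S).trans (ediam_le fun x hx y hy => by
    rw [edist_dist, Real.dist_eq]; exact ENNReal.ofReal_le_ofReal (h x hx y hy))

/-- The fibre of the neighbourhood of a quadric. -/
theorem vol_fib {q d : ℝ → ℝ} {s B : ℝ} (hB : 0 < B) (hs : 0 ≤ s)
    (h : ∀ x y, q x - q y = (x - y) * ((d x + d y) / 2)) :
    volume {x | |q x| ≤ s * B ∧ B ≤ |d x|} ≤ ENNReal.ofReal (4 * s) := by
  have key : ∀ x y, |q x| ≤ s * B → |q y| ≤ s * B → B ≤ |(d x + d y) / 2| → |x - y| ≤ 2 * s := by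
    intro x y hx hy hd
    have h1 : |q x - q y| ≤ 2 * s * B := (abs_sub _ _).trans (by linarith)
    rw [h, abs_mul] at h1
    exact le_of_mul_le_mul_right ((mul_le_mul_of_nonneg_left hd (abs_nonneg _)).trans h1) hB
  have hsub : {x | |q x| ≤ s * B ∧ B ≤ |d x|} ⊆
      {x | |q x| ≤ s * B ∧ B ≤ d x} ∪ {x | |q x| ≤ s * B ∧ d x ≤ -B} := by
    rintro x ⟨h1, h2⟩
    rcases le_abs.1 h2 with h2 | h2
    · exact Or.inl ⟨h1, h2⟩
    · exact Or.inr ⟨h1, by linarith⟩
  refine (measure_mono hsub).trans ((measure_union_le _ _).trans ?_)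
  refine (add_le_add (vol_of_close (b := 2 * s) fun x hx y hy => key x y hx.1 hy.1 ?_)
    (vol_of_close (b := 2 * s) fun x hx y hy => key x y hx.1 hy.1 ?_)).trans ?_
  · exact le_abs.2 (Or.inl (by linarith [hx.2, hy.2]))
  · exact le_abs.2 (Or.inr (by linarith [hx.2, hy.2]))
  · rw [← ENNReal.ofReal_add (by positivity) (by positivity)]
    exact le_of_eq (by congr 1; ring)

theorem vol_slab (c α β r ρ : ℝ) (hr : 0 ≤ r) :
    volume {y : ℝ × ℝ | |y.1 - c| ≤ r ∧ |y.2 - α - β * y.1| ≤ ρ} ≤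
      ENNReal.ofReal (2 * r * (2 * ρ)) := by
  have hm : MeasurableSet {y : ℝ × ℝ | |y.1 - c| ≤ r ∧ |y.2 - α - β * y.1| ≤ ρ} := by
    measurability
  rw [Measure.volume_eq_prod, Measure.prod_apply hm]
  calc _ ≤ ∫⁻ x, (closedBall c r).indicator (fun _ => ENNReal.ofReal (2 * ρ)) x := by
        refine lintegral_mono fun x => ?_
        by_cases hx : x ∈ closedBall c r
        · rw [Set.indicator_of_mem hx]
          refine vol_of_close fun u hu v hv => ?_
          have h1 := abs_le.1 hu.2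
          have h2 := abs_le.1 hv.2
          exact abs_le.2 ⟨by linarith [h1.1, h2.2], by linarith [h1.2, h2.1]⟩
        · rw [Set.indicator_of_notMem hx]
          refine le_of_eq (measure_mono_null (fun u hu => hx ?_) measure_empty |>.trans rfl)
          exact hu.1
    _ = _ := by
        rw [lintegral_indicator_const measurableSet_closedBall, Real.volume_closedBall, mul_comm,
          ← ENNReal.ofReal_mul (by positivity)]

/-- The volume of a slice of the cell. -/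
theorem vol_cell {q d : V 3 → ℝ} (hq : Measurable q) (hd : Measurable d) {c α β r ρ s B : ℝ}
    (hr : 0 ≤ r) (hs : 0 ≤ s) (hB : 0 < B)
    (h : ∀ z z' : V 3, z 0 = z' 0 → z 1 = z' 1 → q z - q z' = (z 2 - z' 2) * ((d z + d z') / 2)) :
    volume {z : V 3 | |z 0 - c| ≤ r ∧ |z 1 - α - β * z 0| ≤ ρ ∧ |q z| ≤ s * B ∧ B ≤ |d z|} ≤
      ENNReal.ofReal (16 * r * ρ * s) := by
  set S := {z : V 3 | |z 0 - c| ≤ r ∧ |z 1 - α - β * z 0| ≤ ρ ∧ |q z| ≤ s * B ∧ B ≤ |d z|}
  have hS : MeasurableSet S := by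
    simp only [S]
    measurability
  let φ : (ℝ × ℝ) × ℝ → V 3 := fun v => ![v.1.1, v.1.2, v.2]
  have hφ : MeasurePreserving φ volume volume := by
    have h1 := (volume_preserving_piFinSuccAbove (fun _ : Fin 3 => ℝ) 2).symm
    have h2 := (MeasurePreserving.id (volume : Measure ℝ)).prod
      (volume_preserving_finTwoArrow ℝ).symm
    have h3 : MeasurePreserving (Prod.swap : (ℝ × ℝ) × ℝ → ℝ × ℝ × ℝ) volume volume :=
      Measure.measurePreserving_swap
    have h4 : φ = (MeasurableEquiv.piFinSuccAbove (fun _ : Fin 3 => ℝ) 2).symm ∘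
        (Prod.map id MeasurableEquiv.finTwoArrow.symm ∘ Prod.swap) := by
      funext v i
      fin_cases i <;> rfl
    rw [h4]
    exact h1.comp (h2.comp h3)
  rw [← hφ.measure_preimage hS.nullMeasurableSet, Measure.volume_eq_prod,
    Measure.prod_apply (hφ.measurable hS)]
  set L := {y : ℝ × ℝ | |y.1 - c| ≤ r ∧ |y.2 - α - β * y.1| ≤ ρ}
  have hm : MeasurableSet L := by
    simp only [L]
    measurability
  calc _ ≤ ∫⁻ y, L.indicator (fun _ => ENNReal.ofReal (4 * s)) y := by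
        refine lintegral_mono fun y => ?_
        by_cases hy : y ∈ L
        · rw [Set.indicator_of_mem hy]
          refine (measure_mono fun x hx => ?_).trans (vol_fib (q := fun x => q (φ (y, x)))
            (d := fun x => d (φ (y, x))) hB hs fun x x' => h _ _ rfl rfl)
          exact hx.2.2
        · rw [Set.indicator_of_notMem hy]
          refine le_of_eq (measure_mono_null (fun u hu => hy ?_) measure_empty |>.trans rfl)
          exact ⟨hu.1, hu.2.1⟩
    _ ≤ _ := by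
        rw [lintegral_indicator_const hm]
        refine (mul_le_mul_right (vol_slab c α β r ρ hr) _).trans ?_
        rw [← ENNReal.ofReal_mul (by positivity)]
        exact le_of_eq (by congr 1; ring)

theorem abs_le_of_sq {x r : ℝ} (hr : 0 ≤ r) (h : 0 < r * r - x * x) : |x| ≤ r :=
  abs_le.2 ⟨by nlinarith, by nlinarith⟩

theorem sq_pos_of_abs {x r : ℝ} (hr : 0 < r) (h : |x| ≤ r) : 0 < 2 * r * (2 * r) - x * x := by
  have := abs_le.1 h
  nlinarith

theorem meas_of_poly {m d : ℕ} {F : V m → ℝ} (h : H83.IsPoly d F) : Measurable F := by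
  obtain ⟨p, -, hp⟩ := h
  have : F = fun y => MvPolynomial.eval y p := funext hp
  rw [this]
  exact (MvPolynomial.continuous_eval p).measurable

/-- The point `z` lies in the slice of a cell: a slab and the neighbourhood of a quadric. -/
def InCell (q d : V 3 → ℝ) (c α β B R r ρ σ : ℝ) (z : V 3) : Prop :=
  ‖z‖ ≤ R ∧ |z 0 - c| ≤ r ∧ |z 1 - α - β * z 0| ≤ ρ ∧ |q z| ≤ σ * B ∧ B ≤ |d z|

/-- The number of directions of lines in a cell. -/
theorem kr : ∃ C : ℝ, 1 ≤ C ∧ ∀ (q d : Fin 4 → V 3 → ℝ) (c α β B t : Fin 4 → ℝ)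
    (τ T R r ρ σ : ℝ) (j : ℕ) (E : Finset (Z 3)), (∀ i, H83.IsPoly 2 (q i)) → (∀ i, H83.IsPoly 2 (d i)) →
    (∀ i (z z' : V 3), z 0 = z' 0 → z 1 = z' 1 →
      q i z - q i z' = (z 2 - z' 2) * ((d i z + d i z') / 2)) →
    0 < τ → (∀ i i', i ≠ i' → τ ≤ |t i - t i'|) → (∀ i, |t i - t 0| ≤ T) →
    0 < r → 0 < ρ → 0 < σ → (∀ i, 0 < B i) →
    (∀ s ∈ E, ∃ a e : V 3, fl j e = s ∧ ∀ i w, ‖w‖ ≤ T / 2 ^ j →
      InCell (q i) (d i) (c i) (α i) (β i) (B i) R r ρ σ (a + t i • e + w)) →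
    (E.card : ℝ) ≤ C * (r * ρ * σ) * ((2 : ℝ) ^ j / τ) ^ 3 := by
  obtain ⟨C, hC, H⟩ := count 3 4 5
  refine ⟨C * 256 + 1, by linarith, fun q d c α β B t τ T R r ρ σ j E hq hd htr hτ ht hT hr hρ hσ
    hB hE => ?_⟩
  let p : Fin 4 → Fin 5 → V 3 → ℝ := fun i =>
    ![fun z => 2 * r * (2 * r) - (z 0 - c i) * (z 0 - c i),
      fun z => 2 * ρ * (2 * ρ) - (z 1 - α i - β i * z 0) * (z 1 - α i - β i * z 0),
      fun z => 2 * (σ * B i) * (2 * (σ * B i)) - q i z * q i z,
      fun z => d i z * d i z - B i / 2 * (B i / 2),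
      fun z => 2 * (|R| + 1) * (2 * (|R| + 1)) - (z 0 * z 0 + z 1 * z 1 + z 2 * z 2)]
  have hp : ∀ i l, H83.IsPoly 4 (p i l) := by
    intro i l
    have h0 := (H83.IsPoly.coord (σ := Fin 3) 0).sub (H83.IsPoly.const 1 (c i))
    have h1 := ((H83.IsPoly.coord (σ := Fin 3) 1).sub (H83.IsPoly.const 1 (α i))).sub
      ((H83.IsPoly.coord (σ := Fin 3) 0).const_mul (β i))
    have h2 := fun k => (H83.IsPoly.coord (σ := Fin 3) k).mul (H83.IsPoly.coord (σ := Fin 3) k)
    fin_cases l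
    · exact (H83.IsPoly.const 4 _).sub ((h0.mul h0).mono (by omega))
    · exact (H83.IsPoly.const 4 _).sub ((h1.mul h1).mono (by omega))
    · exact (H83.IsPoly.const 4 _).sub ((hq i).mul (hq i))
    · exact ((hd i).mul (hd i)).sub (H83.IsPoly.const 4 _)
    · exact (H83.IsPoly.const 4 _).sub ((((h2 0).add (h2 1)).add (h2 2)).mono (by omega))
  have h1 := H p t τ T (2 * (|R| + 1)) (256 * (r * ρ * σ)) j E hp hτ ht hT (fun z hz => ?_)
    (by positivity) (fun i => ?_) (fun s hs => ?_)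
  · refine h1.trans (mul_le_mul_of_nonneg_right ?_ (by positivity))
    have : 0 < r * ρ * σ := by positivity
    nlinarith
  · have h4 : 0 < 2 * (|R| + 1) * (2 * (|R| + 1)) - (z 0 * z 0 + z 1 * z 1 + z 2 * z 2) := hz 4
    refine (pi_norm_le_iff_of_nonneg (by positivity)).2 fun k => abs_le_of_sq (by positivity) ?_
    have := mul_self_nonneg (z 0)
    have := mul_self_nonneg (z 1)
    have := mul_self_nonneg (z 2)
    fin_cases k <;> simp only [Fin.zero_eta, Fin.mk_one, Fin.reduceFinMk] <;> linarith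
  · have hBi := hB i
    refine (measure_mono fun z hz => ?_).trans ((vol_cell (meas_of_poly (hq i))
      (meas_of_poly (hd i)) (c := c i) (α := α i) (β := β i) (r := 2 * r) (ρ := 2 * ρ)
      (s := 4 * σ) (B := B i / 2) (by positivity) (by positivity) (by positivity)
      (htr i)).trans (le_of_eq (by congr 1; ring)))
    refine ⟨abs_le_of_sq (by positivity) (hz 0), abs_le_of_sq (by positivity) (hz 1),
      (abs_le_of_sq (by positivity) (hz 2)).trans (le_of_eq (by ring)), ?_⟩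
    have h3 : 0 < d i z * d i z - B i / 2 * (B i / 2) := hz 3
    by_contra hn
    have := abs_lt.1 (not_le.1 hn)
    nlinarith
  · obtain ⟨a, e, he, h⟩ := hE s hs
    refine ⟨a, e, he, fun i w hw l => ?_⟩
    obtain ⟨g0, g1, g2, g3, g4⟩ := h i w hw
    have hBi := hB i
    set z := a + t i • e + w
    fin_cases l
    · exact sq_pos_of_abs hr g1
    · exact sq_pos_of_abs hρ g2
    · exact sq_pos_of_abs (by positivity) g3
    · change 0 < d i z * d i z - B i / 2 * (B i / 2)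
      have := abs_mul_abs_self (d i z)
      nlinarith
    · change 0 < 2 * (|R| + 1) * (2 * (|R| + 1)) - (z 0 * z 0 + z 1 * z 1 + z 2 * z 2)
      have hk : ∀ k, z k * z k ≤ |R| * |R| := fun k => by
        have := ((norm_le_pi_norm z k).trans g0).trans (le_abs_self R)
        rw [← abs_mul_abs_self]
        exact mul_le_mul this this (abs_nonneg _) (abs_nonneg _)
      have := abs_nonneg R
      nlinarith [hk 0, hk 1, hk 2]

/-- `F s` is a polynomial of degree two and `D s` its derivative in the last coordinate. -/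
def IsQ (F D : ℝ → V 3 → ℝ) : Prop := ∀ s, H83.IsPoly 2 (F s) ∧ H83.IsPoly 2 (D s) ∧
  ∀ z z' : V 3, z 0 = z' 0 → z 1 = z' 1 → F s z - F s z' = (z 2 - z' 2) * ((D s z + D s z') / 2)

/-- Directions of the lines whose segment over a window stays in the cell given by `S`. -/
theorem kr_det : ∃ C : ℝ, 1 ≤ C ∧ ∀ {Ω Λ : Type} (P : H19.FP Ω) (S : Ω → Λ) (a e : Ω → V 3)
    (F D : Λ → ℝ → V 3 → ℝ) (c α β B : Λ → ℝ → ℝ) (t : Λ → ℝ) (T R r ρ σ : ℝ) (j : ℕ),
    (∀ l, IsQ (F l) (D l)) → 0 < T → 0 < r → 0 < ρ → 0 < σ → (∀ l s, 0 < B l s) →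
    (∀ ω ∈ P.S, ∀ s w, t (S ω) ≤ s → s ≤ t (S ω) + T → ‖w‖ ≤ T / 2 ^ j →
      InCell (F (S ω) s) (D (S ω) s) (c (S ω) s) (α (S ω) s) (β (S ω) s) (B (S ω) s) R r ρ σ
        (a ω + s • e ω + w)) →
    Det P (fun ω => fl j (e ω)) S (C * (r * ρ * σ) * ((2 : ℝ) ^ j / T) ^ 3) := by
  classical
  obtain ⟨C, hC, H⟩ := kr
  refine ⟨C * 27, by linarith, fun P S a e F D c α β B t T R r ρ σ j hQ hT hr hρ hσ hB h ω₀ h₀ => ?_⟩
  let s : Fin 4 → ℝ := fun i => t (S ω₀) + (i : ℕ) * (T / 3)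
  have hs : ∀ i : Fin 4, (0 : ℝ) ≤ (i : ℕ) * (T / 3) ∧ (i : ℕ) * (T / 3) ≤ T := fun i => by
    have h3 : ((i : ℕ) : ℝ) ≤ 3 := by exact_mod_cast Nat.lt_succ_iff.1 i.2
    exact ⟨by positivity, by nlinarith⟩
  refine ⟨(P.S.filter fun ω => S ω = S ω₀).image fun ω => fl j (e ω), ?_, fun b hb e =>
    Finset.mem_image_of_mem _ (Finset.mem_filter.2 ⟨hb, e⟩)⟩
  refine (H (fun i => F (S ω₀) (s i)) (fun i => D (S ω₀) (s i)) (fun i => c (S ω₀) (s i))
    (fun i => α (S ω₀) (s i)) (fun i => β (S ω₀) (s i)) (fun i => B (S ω₀) (s i)) s (T / 3) T R r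
    ρ σ j _ (fun i => (hQ _ _).1) (fun i => (hQ _ _).2.1) (fun i => (hQ _ _).2.2) (by positivity)
    (fun i i' hne => ?_) (fun i => ?_) hr hρ hσ (fun i => hB _ _) fun u hu => ?_).trans
    (le_of_eq (by field_simp; ring))
  · have e1 : s i - s i' = (((i : ℕ) : ℤ) - ((i' : ℕ) : ℤ) : ℤ) * (T / 3) := by
      simp only [s]; push_cast; ring
    have e2 : (1 : ℝ) ≤ |((((i : ℕ) : ℤ) - ((i' : ℕ) : ℤ) : ℤ) : ℝ)| := by
      have : (((i : ℕ) : ℤ) - ((i' : ℕ) : ℤ)) ≠ 0 := fun h0 => hne (Fin.ext (by omega))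
      exact_mod_cast Int.one_le_abs this
    rw [e1, abs_mul, abs_of_pos (by positivity : 0 < T / 3)]
    nlinarith
  · have e1 : s i - s 0 = (i : ℕ) * (T / 3) := by simp [s]
    rw [e1, abs_of_nonneg (hs i).1]
    exact (hs i).2
  · obtain ⟨ω, hω, rfl⟩ := Finset.mem_image.1 hu
    obtain ⟨h1, h2⟩ := Finset.mem_filter.1 hω
    refine ⟨a ω, e ω, rfl, fun i w hw => ?_⟩
    have := h ω h1 (s i) w (by simp only [s, h2]; linarith [(hs i).1])
      (by simp only [s, h2]; linarith [(hs i).2]) hw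
    rwa [h2] at this

end Pool.Agent.MP_5168f5_an.H55K
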